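import Mathlib

/-!
# Strongly continuous groups: basic facts
-/

set_option autoImplicit false

open Filter Topology MeasureTheory Set
open scoped NNReal ENNReal InnerProductSpace

namespace Pool.Agent.W680.SG

variable {E : Type*} [NormedAddCommGroup E] [NormedSpace ℂ E]

/-- strongly continuous one-parameter group -/
structure IsGroup (T : ℝ → E →L[ℂ] E) : Prop where
  map_zero : T 0 = 1
  map_add : ∀ s t : ℝ, T (s + t) = T s * T t
  cont : ∀ f : E, Continuous fun t => T t f

/-- `f` is in the domain of the generator and `A f = g`. -/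
def IsGen (T : ℝ → E →L[ℂ] E) (f g : E) : Prop := HasDerivAt (fun t : ℝ => T t f) g 0

/-- `R` is the resolvent of the generator at `z`. -/
def IsRes (T : ℝ → E →L[ℂ] E) (z : ℂ) (R : E →L[ℂ] E) : Prop :=
  (∀ g, IsGen T (R g) (z • R g - g)) ∧ ∀ f g, IsGen T f g → R (z • f - g) = f

namespace IsGroup

variable {T : ℝ → E →L[ℂ] E}

theorem apply_add (hT : IsGroup T) (s t : ℝ) (f : E) : T (s + t) f = T s (T t f) := by
  rw [hT.map_add]; rfl

theorem neg (hT : IsGroup T) : IsGroup fun t => T (-t) := by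
  refine ⟨by simpa using hT.map_zero, fun s t => ?_, fun f => ?_⟩
  · show T (-(s + t)) = T (-s) * T (-t)
    rw [neg_add, hT.map_add]
  · exact (hT.cont f).comp continuous_neg

theorem hasDerivAt (hT : IsGroup T) {f g : E} (h : IsGen T f g) (t : ℝ) :
    HasDerivAt (fun s : ℝ => T s f) (T t g) t := by
  have h1 : HasDerivAt (fun s : ℝ => T t (T s f)) (T t g) 0 := by
    exact ((T t).restrictScalars ℝ).hasFDerivAt.comp_hasDerivAt (0 : ℝ) h
  have h2 : HasDerivAt (fun s : ℝ => T t (T (s - t) f)) (T t g) t := by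
    have h4 : HasDerivAt (fun s : ℝ => T t (T s f)) (T t g) (t - t) := by simpa using h1
    exact h4.comp_sub_const t t
  refine h2.congr_of_eventuallyEq (Eventually.of_forall fun s => ?_)
  show T s f = T t (T (s - t) f)
  rw [← hT.apply_add]; congr 2; ring

variable [CompleteSpace E]

theorem exists_bdd (hT : IsGroup T) : ∃ K : ℝ, 1 ≤ K ∧ ∀ t ∈ Icc (0 : ℝ) 1, ‖T t‖ ≤ K := by
  have : ∃ C, ∀ t : Icc (0 : ℝ) 1, ‖T t‖ ≤ C := by
    apply banach_steinhaus
    intro f
    obtain ⟨C, hC⟩ := (isCompact_Icc (a := (0 : ℝ)) (b := 1)).exists_bound_of_continuousOn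
      (hT.cont f).continuousOn
    exact ⟨C, fun t => hC t t.2⟩
  obtain ⟨C, hC⟩ := this
  exact ⟨max C 1, le_max_right _ _, fun t ht => (hC ⟨t, ht⟩).trans (le_max_left _ _)⟩

theorem pow (hT : IsGroup T) (t : ℝ) (n : ℕ) : T (n * t) = T t ^ n := by
  induction n with
  | zero => simpa using hT.map_zero
  | succ n ih =>
    rw [pow_succ, ← ih, ← hT.map_add]; congr 1; push_cast; ring

/-- If `‖T t₀‖ ≤ e^{r t₀}` for one `t₀ > 0` then `‖T t‖ ≤ K e^{r t}`. -/
theorem growth_of_one (hT : IsGroup T) {t₀ r : ℝ} (h0 : 0 < t₀) (h : ‖T t₀‖ ≤ Real.exp (r * t₀)) :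
    ∃ K : ℝ, 0 < K ∧ ∀ t : ℝ, 0 ≤ t → ‖T t‖ ≤ K * Real.exp (r * t) := by
  have : ∃ C, ∀ t : Icc (0 : ℝ) t₀, ‖T t‖ ≤ C := by
    apply banach_steinhaus
    intro f
    obtain ⟨C, hC⟩ := (isCompact_Icc (a := (0 : ℝ)) (b := t₀)).exists_bound_of_continuousOn
      (hT.cont f).continuousOn
    exact ⟨C, fun t => hC t t.2⟩
  obtain ⟨C, hC⟩ := this
  have hC0 : 0 ≤ C := (norm_nonneg _).trans (hC ⟨0, le_rfl, h0.le⟩)
  refine ⟨(C + 1) * Real.exp (|r| * t₀), by positivity, fun t ht => ?_⟩
  set n : ℕ := ⌊t / t₀⌋₊ with hn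
  have hn1 : (n : ℝ) * t₀ ≤ t := by
    have := Nat.floor_le (div_nonneg ht h0.le)
    rwa [le_div_iff₀ h0] at this
  have hn2 : t < (n + 1) * t₀ := by
    have := Nat.lt_floor_add_one (t / t₀)
    rwa [div_lt_iff₀ h0] at this
  set u := t - n * t₀ with hu
  have hu0 : 0 ≤ u := by linarith
  have hu1 : u ≤ t₀ := by linarith
  have e1 : T t = T t₀ ^ n * T u := by
    rw [← hT.pow, ← hT.map_add]; congr 1; rw [hu]; ring
  have e2 : ‖T t₀ ^ n‖ ≤ Real.exp (r * (n * t₀)) := by
    rcases Nat.eq_zero_or_pos n with h3 | h3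
    · rw [h3]
      simp only [pow_zero, Nat.cast_zero, zero_mul, mul_zero, Real.exp_zero]
      exact ContinuousLinearMap.norm_id_le
    · calc ‖T t₀ ^ n‖ ≤ ‖T t₀‖ ^ n := norm_pow_le' _ h3
        _ ≤ Real.exp (r * t₀) ^ n := pow_le_pow_left₀ (norm_nonneg _) h n
        _ = Real.exp (r * (n * t₀)) := by rw [← Real.exp_nat_mul]; congr 1; ring
  calc ‖T t‖ = ‖T t₀ ^ n * T u‖ := by rw [e1]
    _ ≤ ‖T t₀ ^ n‖ * ‖T u‖ := norm_mul_le _ _
    _ ≤ Real.exp (r * (n * t₀)) * (C + 1) := by
        apply mul_le_mul e2 _ (norm_nonneg _) (Real.exp_pos _).le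
        exact (hC ⟨u, hu0, hu1⟩).trans (by linarith)
    _ ≤ (Real.exp (|r| * t₀) * Real.exp (r * t)) * (C + 1) := by
        apply mul_le_mul_of_nonneg_right _ (by linarith)
        rw [← Real.exp_add]
        apply Real.exp_le_exp.2
        have : -(r * u) ≤ |r| * t₀ := by
          calc -(r * u) ≤ |r * u| := neg_le_abs _
            _ = |r| * u := by rw [abs_mul, abs_of_nonneg hu0]
            _ ≤ |r| * t₀ := mul_le_mul_of_nonneg_left hu1 (abs_nonneg _)
        have h4 : r * (n * t₀) = r * t - r * u := by rw [hu]; ring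
        linarith
    _ = (C + 1) * Real.exp (|r| * t₀) * Real.exp (r * t) := by ring

theorem exists_growth (hT : IsGroup T) :
    ∃ K r : ℝ, 0 < K ∧ ∀ t : ℝ, 0 ≤ t → ‖T t‖ ≤ K * Real.exp (r * t) := by
  obtain ⟨K, hK, h⟩ := hT.exists_bdd
  obtain ⟨K', h1, h2⟩ := hT.growth_of_one (t₀ := 1) (r := Real.log K) one_pos (by
    rw [mul_one, Real.exp_log (by linarith)]
    exact h 1 ⟨zero_le_one, le_rfl⟩)
  exact ⟨K', _, h1, h2⟩

end IsGroup

theorem integral_Ioi_shift {F : Type*} [NormedAddCommGroup F] [NormedSpace ℝ F] (u : ℝ → F) (s : ℝ) :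
    ∫ t in Ioi s, u t = ∫ t in Ioi (0 : ℝ), u (t + s) := by
  rw [← integral_indicator measurableSet_Ioi, ← integral_indicator measurableSet_Ioi,
    ← integral_add_right_eq_self _ s]
  congr 1; ext t
  by_cases h : 0 < t
  · rw [indicator_of_mem (show t + s ∈ Ioi s by simpa using h),
      indicator_of_mem (show t ∈ Ioi 0 from h)]
  · rw [indicator_of_notMem (show t + s ∉ Ioi s by simpa using h),
      indicator_of_notMem (show t ∉ Ioi 0 from h)]

/-! ### Resolvents -/

section Res

variable {T : ℝ → E →L[ℂ] E}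

theorem IsRes.identity {z w : ℂ} {R S : E →L[ℂ] E} (hR : IsRes T z R) (hS : IsRes T w S) :
    R - S = (w - z) • (R * S) := by
  ext g
  have h1 := hR.2 (S g) (w • S g - g) (hS.1 g)
  have e : z • S g - (w • S g - g) = g - (w - z) • S g := by
    rw [sub_smul]; abel
  rw [e, map_sub, map_smul] at h1
  show R g - S g = (w - z) • R (S g)
  rw [sub_eq_iff_eq_add] at h1
  rw [sub_eq_iff_eq_add, h1, add_comm]

theorem IsRes.unique {z : ℂ} {R S : E →L[ℂ] E} (hR : IsRes T z R) (hS : IsRes T z S) : R = S := by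
  have := hR.identity hS
  rwa [sub_self, zero_smul, sub_eq_zero] at this

variable [CompleteSpace E]

/-- the Laplace integrand -/
noncomputable def lap (T : ℝ → E →L[ℂ] E) (z : ℂ) (f : E) (t : ℝ) : E := Complex.exp (-z * t) • T t f

theorem lap_continuous (hT : IsGroup T) (z : ℂ) (f : E) : Continuous (lap T z f) := by
  unfold lap
  exact (Complex.continuous_exp.comp (continuous_const.mul Complex.continuous_ofReal)).smul (hT.cont f)

theorem lap_bound {K r : ℝ} (h : ∀ t : ℝ, 0 ≤ t → ‖T t‖ ≤ K * Real.exp (r * t)) (z : ℂ) (f : E)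
    {t : ℝ} (ht : 0 ≤ t) : ‖lap T z f t‖ ≤ K * ‖f‖ * Real.exp (-(z.re - r) * t) := by
  unfold lap
  rw [norm_smul, Complex.norm_exp]
  have e : (-z * (t : ℂ)).re = -z.re * t := by simp
  rw [e]
  calc Real.exp (-z.re * t) * ‖T t f‖ ≤ Real.exp (-z.re * t) * (K * Real.exp (r * t) * ‖f‖) := by
        apply mul_le_mul_of_nonneg_left _ (Real.exp_pos _).le
        exact ((T t).le_opNorm f).trans (mul_le_mul_of_nonneg_right (h t ht) (norm_nonneg _))
    _ = K * ‖f‖ * Real.exp (-(z.re - r) * t) := by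
        rw [show -(z.re - r) * t = -z.re * t + r * t by ring, Real.exp_add]; ring

theorem lap_integrableOn (hT : IsGroup T) {K r : ℝ}
    (h : ∀ t : ℝ, 0 ≤ t → ‖T t‖ ≤ K * Real.exp (r * t)) {z : ℂ} (hz : r < z.re) (f : E) :
    IntegrableOn (lap T z f) (Ioi 0) := by
  have h1 : IntegrableOn (fun t : ℝ => K * ‖f‖ * Real.exp (-(z.re - r) * t)) (Ioi 0) :=
    (integrableOn_exp_mul_Ioi (by linarith) 0).const_mul _
  refine Integrable.mono' h1 (lap_continuous hT z f).aestronglyMeasurable ?_
  filter_upwards [ae_restrict_mem measurableSet_Ioi] with t ht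
  exact lap_bound h z f (le_of_lt ht)

/-- the Laplace transform of the group, as a bounded operator -/
noncomputable def lapOp (hT : IsGroup T) {K r : ℝ}
    (h : ∀ t : ℝ, 0 ≤ t → ‖T t‖ ≤ K * Real.exp (r * t)) {z : ℂ} (hz : r < z.re) : E →L[ℂ] E :=
  LinearMap.mkContinuous
    { toFun := fun f => ∫ t in Ioi (0 : ℝ), lap T z f t
      map_add' := fun f g => by
        rw [← integral_add (lap_integrableOn hT h hz f) (lap_integrableOn hT h hz g)]
        congr 1; ext t; simp [lap, smul_add]
      map_smul' := fun c f => by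
        rw [RingHom.id_apply, ← integral_smul]
        congr 1; ext t; simp [lap, smul_comm c] }
    (∫ t in Ioi (0 : ℝ), K * Real.exp (-(z.re - r) * t)) (fun f => by
      show ‖∫ t in Ioi (0 : ℝ), lap T z f t‖ ≤ _
      rw [← integral_mul_const]
      apply norm_integral_le_of_norm_le
      · exact ((integrableOn_exp_mul_Ioi (by linarith) 0).const_mul _).mul_const _
      · filter_upwards [ae_restrict_mem measurableSet_Ioi] with t ht
        have := lap_bound h z f (le_of_lt ht)
        calc _ ≤ _ := this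
          _ = _ := by ring)

theorem lapOp_apply (hT : IsGroup T) {K r : ℝ}
    (h : ∀ t : ℝ, 0 ≤ t → ‖T t‖ ≤ K * Real.exp (r * t)) {z : ℂ} (hz : r < z.re) (f : E) :
    lapOp hT h hz f = ∫ t in Ioi (0 : ℝ), lap T z f t := rfl

theorem lapOp_isRes (hT : IsGroup T) {K r : ℝ}
    (h : ∀ t : ℝ, 0 ≤ t → ‖T t‖ ≤ K * Real.exp (r * t)) {z : ℂ} (hz : r < z.re) :
    IsRes T z (lapOp hT h hz) := by
  constructor
  · intro g
    set L := lapOp hT h hz g with hL
    have key : ∀ s : ℝ, T s L = Complex.exp (z * s) • (L - ∫ t in (0 : ℝ)..s, lap T z g t) := by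
      intro s
      have hi : ∀ s : ℝ, IntegrableOn (lap T z g) (Ioi s) := by
        intro s
        rcases le_or_gt 0 s with hs | hs
        · exact (lap_integrableOn hT h hz g).mono_set (Ioi_subset_Ioi hs)
        · have : Ioi s = Ioc s 0 ∪ Ioi 0 := (Ioc_union_Ioi_eq_Ioi hs.le).symm
          rw [this]
          exact ((lap_continuous hT z g).integrableOn_Icc.mono_set Ioc_subset_Icc_self).union
            (lap_integrableOn hT h hz g)
      have e1 : L - ∫ t in (0 : ℝ)..s, lap T z g t = ∫ t in Ioi s, lap T z g t := by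
        rw [hL, lapOp_apply, sub_eq_iff_eq_add,
          intervalIntegral.integral_Ioi_sub_Ioi' (hi 0) (hi s) |>.symm]
        abel
      have e2 : T s L = ∫ t in Ioi (0 : ℝ), T s (lap T z g t) := by
        rw [hL, lapOp_apply]
        exact ((T s).integral_comp_comm (lap_integrableOn hT h hz g)).symm
      rw [e1, e2, ← integral_smul]
      have e3 : ∫ t in Ioi s, Complex.exp (z * s) • lap T z g t
          = ∫ t in Ioi (0 : ℝ), Complex.exp (z * s) • lap T z g (t + s) := by
        exact integral_Ioi_shift (fun t => Complex.exp (z * s) • lap T z g t) s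
      rw [e3]
      congr 1; ext t
      simp only [lap, map_smul]
      rw [smul_smul, ← Complex.exp_add, ← hT.apply_add, add_comm s t]
      congr 2
      push_cast; ring
    have hd : HasDerivAt (fun s : ℝ => Complex.exp (z * s) • (L - ∫ t in (0 : ℝ)..s, lap T z g t))
        (z • L - g) 0 := by
      have h1 : HasDerivAt (fun s : ℝ => Complex.exp (z * s)) z 0 := by
        have h2 : HasDerivAt (fun s : ℝ => z * (s : ℂ)) z 0 := by
          simpa using (Complex.ofRealCLM.hasDerivAt (x := (0 : ℝ))).const_mul z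
        simpa using h2.cexp
      have h3 : HasDerivAt (fun s : ℝ => L - ∫ t in (0 : ℝ)..s, lap T z g t) (-g) 0 := by
        have h4 := intervalIntegral.integral_hasDerivAt_right
          ((lap_continuous hT z g).intervalIntegrable 0 0)
          ((lap_continuous hT z g).stronglyMeasurableAtFilter _ _)
          (lap_continuous hT z g).continuousAt
        have h5 : lap T z g 0 = g := by simp [lap, hT.map_zero]
        rw [h5] at h4
        simpa using h4.const_sub L
      have h6 := h1.smul h3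
      have e : Complex.exp (z * ((0 : ℝ) : ℂ)) • (-g) + z • (L - ∫ t in (0 : ℝ)..0, lap T z g t)
          = z • L - g := by simp [sub_eq_add_neg, add_comm]
      rw [e] at h6
      exact h6
    show HasDerivAt (fun t : ℝ => T t L) (z • L - g) 0
    exact hd.congr_of_eventuallyEq (Eventually.of_forall key)
  · intro f g hfg
    rw [lapOp_apply]
    have hd : ∀ t : ℝ, HasDerivAt (fun s : ℝ => -lap T z f s) (lap T z (z • f - g) t) t := by
      intro t
      have h1 : HasDerivAt (fun s : ℝ => Complex.exp (-z * s)) (Complex.exp (-z * t) * (-z)) t := by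
        have h2 : HasDerivAt (fun s : ℝ => -z * (s : ℂ)) (-z) t := by
          simpa using (Complex.ofRealCLM.hasDerivAt (x := t)).const_mul (-z)
        exact h2.cexp
      have h3 := (h1.smul (hT.hasDerivAt hfg t)).neg
      have e : -(Complex.exp (-z * t) • T t g + (Complex.exp (-z * t) * -z) • T t f)
          = lap T z (z • f - g) t := by
        simp only [lap, map_sub, map_smul, smul_sub, neg_add]
        rw [mul_neg, neg_smul, neg_neg, mul_smul]
        abel
      rw [e] at h3
      exact h3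
    have h0 : Tendsto (fun s : ℝ => -lap T z f s) atTop (𝓝 0) := by
      rw [← neg_zero]
      apply Tendsto.neg
      apply squeeze_zero_norm' (a := fun t : ℝ => K * ‖f‖ * Real.exp (-(z.re - r) * t))
      · filter_upwards [eventually_ge_atTop (0 : ℝ)] with t ht
        exact lap_bound h z f ht
      · rw [← mul_zero (K * ‖f‖)]
        apply Tendsto.const_mul
        apply Real.tendsto_exp_atBot.comp
        exact tendsto_id.const_mul_atTop_of_neg (by linarith)
    have := integral_Ioi_of_hasDerivAt_of_tendsto' (a := (0 : ℝ)) (fun t _ => hd t)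
      (lap_integrableOn hT h hz _) h0
    rw [this]
    simp [lap, hT.map_zero]

end Res

end Pool.Agent.W680.SG
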