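import Mathlib

/-!
# Closed normal generating cones in a real Hilbert space; the dual cone is generating
-/

set_option autoImplicit false

open Filter Topology Set
open scoped InnerProductSpace Pointwise

namespace Pool.Agent.W680.SG

variable {H : Type*} [NormedAddCommGroup H] [InnerProductSpace ℝ H]

/-- closed, normal, generating cone -/
structure IsOrderCone (P : Set H) : Prop where
  isClosed : IsClosed P
  zero_mem : (0 : H) ∈ P
  add_mem : ∀ x ∈ P, ∀ y ∈ P, x + y ∈ P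
  smul_mem : ∀ r : ℝ, 0 ≤ r → ∀ x ∈ P, r • x ∈ P
  normal : ∃ c : ℝ, 0 < c ∧ ∀ x y : H, x ∈ P → y - x ∈ P → ‖x‖ ≤ c * ‖y‖
  generating : ∀ x : H, ∃ y ∈ P, ∃ z ∈ P, x = y - z

variable [CompleteSpace H]

theorem IsOrderCone.dual_generating {P : Set H} (hP : IsOrderCone P) (ψ : H) :
    ∃ φ₁ φ₂ : H, (∀ x ∈ P, 0 ≤ ⟪φ₁, x⟫_ℝ) ∧ (∀ x ∈ P, 0 ≤ ⟪φ₂, x⟫_ℝ) ∧ ψ = φ₁ - φ₂ := by
  obtain ⟨c, hc, hn⟩ := hP.normal
  set C : ℝ := ‖ψ‖ * c with hC
  have hC0 : 0 ≤ C := mul_nonneg (norm_nonneg _) hc.le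
  set S : H → Set ℝ := fun x => {r | ∃ y ∈ P, ∃ w ∈ P, r = C * ‖x + y + w‖ - ⟪ψ, y⟫_ℝ} with hS
  have hlow : ∀ x, ∀ r ∈ S x, -(C * ‖x‖) ≤ r := by
    rintro x r ⟨y, hy, w, hw, rfl⟩
    have h1 : ‖y‖ ≤ c * ‖y + w‖ := hn y (y + w) hy (by simpa using hw)
    have h2 : ⟪ψ, y⟫_ℝ ≤ ‖ψ‖ * ‖y‖ := real_inner_le_norm _ _
    have h3 : ‖y + w‖ ≤ ‖x + y + w‖ + ‖x‖ := by
      calc ‖y + w‖ = ‖(x + y + w) - x‖ := by congr 1; abel
        _ ≤ _ := norm_sub_le _ _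
    have h4 : ‖ψ‖ * ‖y‖ ≤ ‖ψ‖ * (c * ‖y + w‖) := mul_le_mul_of_nonneg_left h1 (norm_nonneg _)
    have h5 : C * ‖y + w‖ ≤ C * (‖x + y + w‖ + ‖x‖) := mul_le_mul_of_nonneg_left h3 hC0
    have h6 : ‖ψ‖ * (c * ‖y + w‖) = C * ‖y + w‖ := by rw [hC]; ring
    linarith [h5, h6, mul_add C (‖x + y + w‖) ‖x‖]
  have hbdd : ∀ x, BddBelow (S x) := fun x => ⟨-(C * ‖x‖), fun r hr => hlow x r hr⟩
  have hne : ∀ x, (S x).Nonempty := fun x =>
    ⟨C * ‖x + 0 + 0‖ - ⟪ψ, (0 : H)⟫_ℝ, 0, hP.zero_mem, 0, hP.zero_mem, rfl⟩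
  set N : H → ℝ := fun x => sInf (S x) with hN
  have hN1 : ∀ x, ∀ y ∈ P, ∀ w ∈ P, N x ≤ C * ‖x + y + w‖ - ⟪ψ, y⟫_ℝ := fun x y hy w hw =>
    csInf_le (hbdd x) ⟨y, hy, w, hw, rfl⟩
  have hhom : ∀ r : ℝ, 0 < r → ∀ x, N (r • x) = r * N x := by
    intro r hr x
    have e : S (r • x) = r • S x := by
      ext a
      constructor
      · rintro ⟨y, hy, w, hw, rfl⟩
        refine ⟨C * ‖x + r⁻¹ • y + r⁻¹ • w‖ - ⟪ψ, r⁻¹ • y⟫_ℝ, ⟨_, hP.smul_mem _ (by positivity) _ hy, _,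
          hP.smul_mem _ (by positivity) _ hw, rfl⟩, ?_⟩
        show r * (C * ‖x + r⁻¹ • y + r⁻¹ • w‖ - ⟪ψ, r⁻¹ • y⟫_ℝ) = _
        have e1 : r • x + y + w = r • (x + r⁻¹ • y + r⁻¹ • w) := by
          rw [smul_add, smul_add, smul_smul, smul_smul, mul_inv_cancel₀ hr.ne', one_smul, one_smul]
        rw [e1, norm_smul, Real.norm_of_nonneg hr.le, inner_smul_right]
        field_simp
      · rintro ⟨b, ⟨y, hy, w, hw, rfl⟩, rfl⟩
        refine ⟨r • y, hP.smul_mem _ hr.le _ hy, r • w, hP.smul_mem _ hr.le _ hw, ?_⟩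
        show r * _ = _
        rw [← smul_add, ← smul_add, norm_smul, Real.norm_of_nonneg hr.le, inner_smul_right]
        ring
    show sInf (S (r • x)) = r * sInf (S x)
    rw [e, Real.sInf_smul_of_nonneg hr.le, smul_eq_mul]
  have hadd : ∀ x y, N (x + y) ≤ N x + N y := by
    intro x y
    have h1 : ∀ a ∈ S x, ∀ b ∈ S y, N (x + y) ≤ a + b := by
      rintro a ⟨y1, hy1, w1, hw1, rfl⟩ b ⟨y2, hy2, w2, hw2, rfl⟩
      refine (hN1 (x + y) (y1 + y2) (hP.add_mem _ hy1 _ hy2) (w1 + w2)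
        (hP.add_mem _ hw1 _ hw2)).trans ?_
      have e : x + y + (y1 + y2) + (w1 + w2) = (x + y1 + w1) + (y + y2 + w2) := by abel
      rw [e, inner_add_right]
      have := mul_le_mul_of_nonneg_left (norm_add_le (x + y1 + w1) (y + y2 + w2)) hC0
      linarith [this, mul_add C ‖x + y1 + w1‖ ‖y + y2 + w2‖]
    have h2 : ∀ b ∈ S y, N (x + y) - b ≤ N x := by
      intro b hb
      apply le_csInf (hne x)
      intro a ha
      linarith [h1 a ha b hb]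
    have h3 : N (x + y) - N x ≤ N y := by
      apply le_csInf (hne y)
      intro b hb
      linarith [h2 b hb]
    linarith
  obtain ⟨g, -, hg⟩ := exists_extension_of_le_sublinear (⊥ : H →ₗ.[ℝ] ℝ) N hhom hadd (by
    rintro ⟨x, hx⟩
    have hx0 : x = 0 := (Submodule.mem_bot ℝ).1 hx
    subst hx0
    have e : (⊥ : H →ₗ.[ℝ] ℝ) ⟨0, hx⟩ = 0 := (⊥ : H →ₗ.[ℝ] ℝ).map_zero
    rw [e]
    show 0 ≤ N 0
    apply le_csInf (hne 0)
    intro b hb
    have := hlow 0 b hb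
    simpa using this)
  have hgC : ∀ x, g x ≤ C * ‖x‖ := by
    intro x
    have := (hg x).trans (hN1 x 0 hP.zero_mem 0 hP.zero_mem)
    simpa using this
  have hgn : ∀ x, ‖g x‖ ≤ C * ‖x‖ := by
    intro x
    rw [Real.norm_eq_abs, abs_le]
    refine ⟨?_, hgC x⟩
    have := hgC (-x)
    rw [map_neg, norm_neg] at this
    linarith
  set G : H →L[ℝ] ℝ := LinearMap.mkContinuous g C hgn with hG
  refine ⟨(InnerProductSpace.toDual ℝ H).symm G, (InnerProductSpace.toDual ℝ H).symm G - ψ,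
    fun x hx => ?_, fun x hx => ?_, by abel⟩
  · rw [InnerProductSpace.toDual_symm_apply]
    show 0 ≤ g x
    have := (hg (-x)).trans (hN1 (-x) 0 hP.zero_mem x hx)
    rw [map_neg] at this
    simp at this
    exact this
  · rw [inner_sub_left, InnerProductSpace.toDual_symm_apply]
    show 0 ≤ g x - _
    have := (hg (-x)).trans (hN1 (-x) x hx 0 hP.zero_mem)
    rw [map_neg] at this
    simp at this
    linarith

end Pool.Agent.W680.SG
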