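import Pool.Agent.W680.SG.Main

/-!
# Positive groups on an ordered Hilbert space: growth bound = spectral bound
-/

set_option autoImplicit false

open Filter Topology MeasureTheory Set FourierTransform
open scoped NNReal ENNReal InnerProductSpace

namespace Pool.Agent.W680.SG

variable {E : Type*} [NormedAddCommGroup E] [InnerProductSpace ℂ E] [CompleteSpace E]

theorem norm_inner_lap (T : ℝ → E →L[ℂ] E) (φ x : E) {z w : ℂ} (h : z.re = w.re) (t : ℝ) :
    ‖⟪φ, lap T z x t⟫_ℂ‖ = ‖⟪φ, lap T w x t⟫_ℂ‖ := by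
  simp only [lap, inner_smul_right, norm_mul, Complex.norm_exp]
  congr 2
  simp [h]

theorem res_uniform {T : ℝ → E →L[ℂ] E} {s : ℝ} (hw : ∀ φ x : E, WeakRep T s φ x) {a : ℝ} (ha : s < a) :
    ∃ C : ℝ, 0 ≤ C ∧ ∀ z : ℂ, z.re = a → ‖res T z‖ ≤ C := by
  have h1 : ∀ φ x : E, ∃ C, ∀ z : {z : ℂ // z.re = a}, ‖⟪φ, res T z x⟫_ℂ‖ ≤ C := by
    intro φ x
    refine ⟨∫ t in Ioi (0 : ℝ), ‖⟪φ, lap T (a : ℂ) x t⟫_ℂ‖, fun z => ?_⟩
    rw [(hw φ x z (by rw [z.2]; exact ha)).2]
    refine (norm_integral_le_integral_norm _).trans (le_of_eq ?_)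
    congr 1; ext t
    exact norm_inner_lap T φ x (by rw [z.2]; simp) t
  have h2 : ∀ x : E, ∃ C, ∀ z : {z : ℂ // z.re = a}, ‖res T z x‖ ≤ C := by
    intro x
    have h3 : ∃ C, ∀ z : {z : ℂ // z.re = a}, ‖innerSL ℂ (res T z x)‖ ≤ C := by
      apply banach_steinhaus
      intro φ
      obtain ⟨C, hC⟩ := h1 φ x
      refine ⟨C, fun z => ?_⟩
      rw [innerSL_apply_apply, ← inner_conj_symm, RCLike.norm_conj]
      exact hC z
    obtain ⟨C, hC⟩ := h3
    refine ⟨C, fun z => ?_⟩
    rw [← innerSL_apply_norm (𝕜 := ℂ)]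
    exact hC z
  obtain ⟨C, hC⟩ := banach_steinhaus (g := fun z : {z : ℂ // z.re = a} => res T z) h2
  exact ⟨max C 0, le_max_right _ _, fun z hz => (hC ⟨z, hz⟩).trans (le_max_left _ _)⟩

/-- the Laplace integrand cut off at `0` -/
noncomputable def cut (T : ℝ → E →L[ℂ] E) (z : ℂ) (x : E) : ℝ → E := (Ioi (0 : ℝ)).indicator (lap T z x)

theorem fourier_cut (T : ℝ → E →L[ℂ] E) (a b : ℝ) (x : E) :
    𝓕 (cut T a x) b = ∫ t in Ioi (0 : ℝ), lap T (a + 2 * Real.pi * b * Complex.I) x t := by
  rw [Real.fourier_real_eq_integral_exp_smul, ← integral_indicator measurableSet_Ioi]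
  congr 1; ext t
  by_cases ht : t ∈ Ioi (0 : ℝ)
  · rw [cut, indicator_of_mem ht, indicator_of_mem ht, lap, lap, smul_smul, ← Complex.exp_add]
    congr 2
    push_cast; ring
  · rw [cut, indicator_of_notMem ht, indicator_of_notMem ht, smul_zero]

theorem fourier_inner_cut (T : ℝ → E →L[ℂ] E) (a b : ℝ) (φ x : E) :
    𝓕 (fun t => ⟪φ, cut T a x t⟫_ℂ) b
      = ∫ t in Ioi (0 : ℝ), ⟪φ, lap T (a + 2 * Real.pi * b * Complex.I) x t⟫_ℂ := by
  rw [Real.fourier_real_eq_integral_exp_smul, ← integral_indicator measurableSet_Ioi]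
  congr 1; ext t
  by_cases ht : t ∈ Ioi (0 : ℝ)
  · rw [cut, indicator_of_mem ht, indicator_of_mem ht, lap, lap, inner_smul_right, inner_smul_right,
      smul_eq_mul, ← mul_assoc, ← Complex.exp_add]
    congr 2
    push_cast; ring
  · rw [cut, indicator_of_notMem ht, indicator_of_notMem ht, inner_zero_right, smul_zero]

theorem memLp_cut_of_growth {T : ℝ → E →L[ℂ] E} (hT : IsGroup T) {K r : ℝ} (hK : 0 < K)
    (h : ∀ t : ℝ, 0 ≤ t → ‖T t‖ ≤ K * Real.exp (r * t)) {a : ℝ} (ha : r < a) (x : E) :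
    MemLp (cut T a x) 2 := by
  have hmeas : AEStronglyMeasurable (cut T a x) volume :=
    (lap_continuous hT _ x).aestronglyMeasurable.indicator measurableSet_Ioi
  rw [memLp_two_iff_integrable_sq_norm hmeas]
  have h1 : Integrable ((Ioi (0 : ℝ)).indicator
      fun t : ℝ => (K * ‖x‖) ^ 2 * Real.exp (-(2 * (a - r)) * t)) := by
    rw [integrable_indicator_iff measurableSet_Ioi]
    exact (integrableOn_exp_mul_Ioi (by linarith) 0).const_mul _
  refine h1.mono' (hmeas.norm.pow 2) (Eventually.of_forall fun t => ?_)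
  rw [Real.norm_of_nonneg (by positivity)]
  by_cases ht : t ∈ Ioi (0 : ℝ)
  · rw [cut, indicator_of_mem ht, indicator_of_mem ht]
    have h2 := lap_bound h (a : ℂ) x (le_of_lt ht)
    rw [Complex.ofReal_re] at h2
    calc ‖lap T (a : ℂ) x t‖ ^ 2 ≤ (K * ‖x‖ * Real.exp (-(a - r) * t)) ^ 2 :=
          pow_le_pow_left₀ (norm_nonneg _) h2 2
      _ = (K * ‖x‖) ^ 2 * Real.exp (-(2 * (a - r)) * t) := by
          rw [mul_pow, ← Real.exp_nat_mul]; congr 2; push_cast; ring
  · rw [cut, indicator_of_notMem ht, indicator_of_notMem ht]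
    simp

theorem integrable_cut_of_growth {T : ℝ → E →L[ℂ] E} (hT : IsGroup T) {K r : ℝ}
    (h : ∀ t : ℝ, 0 ≤ t → ‖T t‖ ≤ K * Real.exp (r * t)) {a : ℝ} (ha : r < a) (x : E) :
    Integrable (cut T a x) := by
  rw [cut, integrable_indicator_iff measurableSet_Ioi]
  exact lap_integrableOn hT h (by simpa using ha) x

theorem memLp_cut {T : ℝ → E →L[ℂ] E} (hT : IsGroup T) {s : ℝ}
    (hs : ∀ z : ℂ, s < z.re → ∃ R, IsRes T z R) (hw : ∀ φ x : E, WeakRep T s φ x) {a : ℝ} (ha : s < a)
    (x : E) : MemLp (cut T a x) 2 := by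
  obtain ⟨K, r, hK, h⟩ := hT.exists_growth
  obtain ⟨C, hC0, hC⟩ := res_uniform hw ha
  set a' : ℝ := max a r + 1 with ha'
  have h1 : a < a' := by have := le_max_left a r; linarith
  have h2 : r < a' := by have := le_max_right a r; linarith
  set zz : ℝ → ℝ → ℂ := fun c b => c + 2 * Real.pi * b * Complex.I with hzz
  have hre : ∀ c b : ℝ, (zz c b).re = c := by intro c b; simp [hzz]
  have hG' : MemLp (fun b : ℝ => res T (zz a' b) x) 2 := by
    have h3 := memLp_fourier (cut T a' x) (integrable_cut_of_growth hT h h2 x)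
      (memLp_cut_of_growth hT hK h h2 x)
    have e : 𝓕 (cut T a' x) = fun b : ℝ => res T (zz a' b) x := by
      ext b
      have h4 : r < (zz a' b).re := by rw [hre]; exact h2
      have h5 : s < (zz a' b).re := by rw [hre]; linarith
      rw [fourier_cut, (res_spec (hs _ h5)).unique (lapOp_isRes hT h h4), lapOp_apply]
    rwa [e] at h3
  have hcont : Continuous fun b : ℝ => res T (zz a b) x := by
    rw [continuous_iff_continuousAt]
    intro b
    have h5 : s < (zz a b).re := by rw [hre]; exact ha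
    have h6 : Tendsto (fun b : ℝ => zz a b) (𝓝 b) (𝓝 (zz a b)) := by
      have : Continuous fun b : ℝ => zz a b := by simp only [hzz]; fun_prop
      exact this.tendsto b
    have h7 := (res_tendsto hs h5).comp h6
    exact ((ContinuousLinearMap.apply ℂ E x).continuous.tendsto _).comp h7
  have hG : MemLp (fun b : ℝ => res T (zz a b) x) 2 := by
    refine MemLp.of_le_mul (c := 1 + |a' - a| * C) hG' hcont.aestronglyMeasurable
      (Eventually.of_forall fun b => ?_)
    have h5 : s < (zz a b).re := by rw [hre]; exact ha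
    have h6 : s < (zz a' b).re := by rw [hre]; linarith
    have h7 := (res_spec (hs _ h5)).identity (res_spec (hs _ h6))
    have h8 : res T (zz a b) x = res T (zz a' b) x
        + (zz a' b - zz a b) • res T (zz a b) (res T (zz a' b) x) := by
      have := congrArg (fun L : E →L[ℂ] E => L x) h7
      simp only [ContinuousLinearMap.sub_apply] at this
      rw [sub_eq_iff_eq_add] at this
      rw [this, add_comm]
      rfl
    rw [h8]
    have h9 : ‖zz a' b - zz a b‖ = |a' - a| := by
      have : zz a' b - zz a b = ((a' - a : ℝ) : ℂ) := by simp only [hzz]; push_cast; ring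
      rw [this, Complex.norm_real, Real.norm_eq_abs]
    calc _ ≤ ‖res T (zz a' b) x‖ + ‖(zz a' b - zz a b) • res T (zz a b) (res T (zz a' b) x)‖ :=
          norm_add_le _ _
      _ ≤ ‖res T (zz a' b) x‖ + |a' - a| * (C * ‖res T (zz a' b) x‖) := by
          rw [norm_smul, h9]
          gcongr
          exact ((res T (zz a b)).le_opNorm _).trans
            (mul_le_mul_of_nonneg_right (hC _ (hre a b)) (norm_nonneg _))
      _ = (1 + |a' - a| * C) * ‖res T (zz a' b) x‖ := by ring
  refine memLp_of_weak_fourier (G := fun b : ℝ => res T (zz a b) x) ?_ hG fun φ => ⟨?_, fun b => ?_⟩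
  · exact (lap_continuous hT _ x).locallyIntegrable.indicator measurableSet_Ioi
  · have h3 := (hw φ x (a : ℂ) (by simpa using ha)).1
    have e : (fun t => ⟪φ, cut T a x t⟫_ℂ) = (Ioi (0 : ℝ)).indicator fun t => ⟪φ, lap T a x t⟫_ℂ := by
      ext t
      by_cases ht : t ∈ Ioi (0 : ℝ)
      · rw [cut, indicator_of_mem ht, indicator_of_mem ht]
      · rw [cut, indicator_of_notMem ht, indicator_of_notMem ht, inner_zero_right]
    rw [e, integrable_indicator_iff measurableSet_Ioi]
    exact h3
  · rw [fourier_inner_cut]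
    exact ((hw φ x (zz a b) (by rw [hre]; exact ha)).2).symm

/-- `‖T t‖ ≤ K e^{at}` for every `a` to the right of the spectral bound. -/
theorem growth_of_weakRep {T : ℝ → E →L[ℂ] E} (hT : IsGroup T) {s : ℝ}
    (hs : ∀ z : ℂ, s < z.re → ∃ R, IsRes T z R) (hw : ∀ φ x : E, WeakRep T s φ x) {a : ℝ} (ha : s < a) :
    ∃ K : ℝ, 0 < K ∧ ∀ t : ℝ, 0 ≤ t → ‖T t‖ ≤ K * Real.exp (a * t) := by
  obtain ⟨K₁, hK₁, hb⟩ := hT.exists_bdd
  have hub : ∃ C, ∀ t : Ici (1 : ℝ), ‖Real.exp (-a * t) • T t‖ ≤ C := by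
    have h0 : ∃ C, ∀ t : Ici (1 : ℝ), ‖((Real.exp (-a * t) : ℝ) : ℂ) • T t‖ ≤ C := by
      apply banach_steinhaus
      intro x
      have hmem := memLp_cut hT hs hw ha x
      have hmeas := hmem.1
      rw [memLp_two_iff_integrable_sq_norm hmeas] at hmem
      set I : ℝ := ∫ u, ‖cut T a x u‖ ^ 2 with hI
      have hI0 : 0 ≤ I := integral_nonneg fun u => by positivity
      set D : ℝ := K₁ * Real.exp |a| with hD
      have hD0 : 0 ≤ D := by positivity
      refine ⟨Real.sqrt (D ^ 2 * I), fun ⟨t, ht⟩ => ?_⟩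
      have ht1 : (1 : ℝ) ≤ t := ht
      apply Real.le_sqrt_of_sq_le
      set v : ℝ := ‖(((Real.exp (-a * t) : ℝ) : ℂ) • T t) x‖ with hv
      have hv' : v = Real.exp (-a * t) * ‖T t x‖ := by
        rw [hv, ContinuousLinearMap.smul_apply, norm_smul, Complex.norm_real, Real.norm_of_nonneg
          (Real.exp_pos _).le]
      have hpt : ∀ u ∈ Ioc (t - 1) t, v ^ 2 ≤ D ^ 2 * ‖cut T a x u‖ ^ 2 := by
        intro u hu
        have hu0 : u ∈ Ioi (0 : ℝ) := by
          show 0 < u
          linarith [hu.1]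
        rw [← mul_pow]
        have hv0 : 0 ≤ v := norm_nonneg _
        refine pow_le_pow_left₀ hv0 ?_ 2
        rw [hv', cut, indicator_of_mem hu0, lap, norm_smul, Complex.norm_exp]
        have e1 : T t x = T (t - u) (T u x) := by
          rw [← hT.apply_add]; congr 2; ring
        have e2 : ‖T t x‖ ≤ K₁ * ‖T u x‖ := by
          rw [e1]
          refine ((T (t - u)).le_opNorm _).trans (mul_le_mul_of_nonneg_right ?_ (norm_nonneg _))
          exact hb _ ⟨by linarith [hu.2], by linarith [hu.1]⟩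
        have e3 : Real.exp (-a * t) ≤ Real.exp |a| * Real.exp (-a * u) := by
          rw [← Real.exp_add]
          apply Real.exp_le_exp.2
          have h5 : -a * (t - u) ≤ |a| * 1 := by
            calc -a * (t - u) ≤ |-a * (t - u)| := le_abs_self _
              _ = |a| * (t - u) := by
                rw [abs_mul, abs_neg, abs_of_nonneg (show 0 ≤ t - u by linarith [hu.2])]
              _ ≤ |a| * 1 := mul_le_mul_of_nonneg_left (by linarith [hu.1]) (abs_nonneg _)
          linarith
        have e4 : (-(a : ℂ) * (u : ℂ)).re = -a * u := by simp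
        rw [e4]
        calc Real.exp (-a * t) * ‖T t x‖
            ≤ (Real.exp |a| * Real.exp (-a * u)) * (K₁ * ‖T u x‖) := by gcongr
          _ = D * (Real.exp (-a * u) * ‖T u x‖) := by rw [hD]; ring
      calc v ^ 2 = ∫ u in Ioc (t - 1) t, v ^ 2 := by
            rw [setIntegral_const]; simp
        _ ≤ ∫ u in Ioc (t - 1) t, D ^ 2 * ‖cut T a x u‖ ^ 2 := by
            apply setIntegral_mono_on
            · exact integrableOn_const (by simp)
            · exact (hmem.const_mul _).integrableOn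
            · exact measurableSet_Ioc
            · exact hpt
        _ ≤ ∫ u, D ^ 2 * ‖cut T a x u‖ ^ 2 := by
            apply setIntegral_le_integral (hmem.const_mul _)
            exact Eventually.of_forall fun u => by positivity
        _ = D ^ 2 * I := by rw [integral_const_mul]
    obtain ⟨C, hC⟩ := h0
    refine ⟨C, fun t => ?_⟩
    have := hC t
    rwa [norm_smul, Complex.norm_real, ← norm_smul] at this
  obtain ⟨C, hC⟩ := hub
  refine ⟨max C 1 + K₁ * Real.exp |a|, by positivity, fun t ht => ?_⟩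
  rcases le_or_gt 1 t with h1 | h1
  · have := hC ⟨t, h1⟩
    rw [norm_smul, Real.norm_of_nonneg (Real.exp_pos _).le] at this
    have e : ‖T t‖ = Real.exp (a * t) * (Real.exp (-a * t) * ‖T t‖) := by
      rw [← mul_assoc, ← Real.exp_add]; simp
    rw [e]
    calc Real.exp (a * t) * (Real.exp (-a * t) * ‖T t‖) ≤ Real.exp (a * t) * C := by gcongr
      _ ≤ (max C 1 + K₁ * Real.exp |a|) * Real.exp (a * t) := by
          rw [mul_comm]
          apply mul_le_mul_of_nonneg_right _ (Real.exp_pos _).le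
          have := le_max_left C 1
          have : 0 ≤ K₁ * Real.exp |a| := by positivity
          linarith
  · have h2 := hb t ⟨ht, h1.le⟩
    have h3 : (1 : ℝ) ≤ Real.exp |a| * Real.exp (a * t) := by
      rw [← Real.exp_add]
      apply Real.one_le_exp
      have : -(a * t) ≤ |a| * 1 := by
        calc -(a * t) ≤ |a * t| := neg_le_abs _
          _ = |a| * t := by rw [abs_mul, abs_of_nonneg ht]
          _ ≤ |a| * 1 := mul_le_mul_of_nonneg_left h1.le (abs_nonneg _)
      linarith
    calc ‖T t‖ ≤ K₁ := h2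
      _ ≤ K₁ * (Real.exp |a| * Real.exp (a * t)) := le_mul_of_one_le_right (by linarith) h3
      _ ≤ (max C 1 + K₁ * Real.exp |a|) * Real.exp (a * t) := by
          rw [← mul_assoc]
          apply mul_le_mul_of_nonneg_right _ (Real.exp_pos _).le
          have := le_max_right C 1
          linarith

end Pool.Agent.W680.SG
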