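import Mathlib

/-!
# Landau's theorem on Laplace transforms of positive measures
-/

set_option autoImplicit false

open Filter Topology Set MeasureTheory ProbabilityTheory
open scoped ENNReal

namespace Pool.Agent.W680.SG

theorem landau {μ : Measure ℝ} (hμ : ∀ᵐ t ∂μ, 0 ≤ t) {s c₀ : ℝ}
    (hc : ∀ a, c₀ < a → Integrable (fun t : ℝ => Real.exp (a * (-t))) μ) {F : ℂ → ℂ}
    (hF : DifferentiableOn ℂ F {z | s < z.re})
    (hFL : ∀ z : ℂ, c₀ < z.re → F z = ∫ t, Complex.exp (z * ((-t : ℝ) : ℂ)) ∂μ) :
    (∀ a, s < a → Integrable (fun t : ℝ => Real.exp (a * (-t))) μ) ∧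
      ∀ z : ℂ, s < z.re → F z = ∫ t, Complex.exp (z * ((-t : ℝ) : ℂ)) ∂μ := by
  set X : ℝ → ℝ := fun t => -t with hX
  have hFL' : ∀ z : ℂ, c₀ < z.re → F z = complexMGF X μ z := hFL
  have hint : ∀ c, c₀ < c → c ∈ interior (integrableExpSet X μ) := by
    intro c hcc
    rw [mem_interior]
    exact ⟨Ioi c₀, fun a ha => hc a ha, isOpen_Ioi, hcc⟩
  have hev : ∀ c : ℝ, c₀ < c → F =ᶠ[𝓝 (c : ℂ)] complexMGF X μ := by
    intro c hcc
    have : {z : ℂ | c₀ < z.re} ∈ 𝓝 (c : ℂ) :=
      (isOpen_lt continuous_const Complex.continuous_re).mem_nhds (by simpa using hcc)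
    filter_upwards [this] with z hz
    exact hFL' z hz
  have main : ∀ a, s < a → Integrable (fun t : ℝ => Real.exp (a * (-t))) μ := by
    intro a ha
    set c : ℝ := max a c₀ + 1 with hcdef
    have hca : a < c := by have := le_max_left a c₀; linarith
    have hcc : c₀ < c := by have := le_max_right a c₀; linarith
    have hball : DifferentiableOn ℂ F (Metric.ball (c : ℂ) (c - s)) := by
      apply hF.mono
      intro z hz
      rw [Metric.mem_ball, Complex.dist_eq] at hz
      have h1 : |(z - c).re| ≤ ‖z - c‖ := Complex.abs_re_le_norm _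
      have h2 : (z - c).re = z.re - c := by simp
      rw [h2] at h1
      have h3 := (abs_le.1 h1).1
      show s < z.re
      linarith
    have hmem : (a : ℂ) ∈ Metric.ball (c : ℂ) (c - s) := by
      rw [Metric.mem_ball, Complex.dist_eq, ← Complex.ofReal_sub, Complex.norm_real, Real.norm_eq_abs,
        abs_of_neg (by linarith)]
      linarith
    have hsum := Complex.hasSum_taylorSeries_on_ball hball hmem
    set b : ℕ → ℝ := fun n => ∫ t, ((c - a) * t) ^ n / (n.factorial : ℝ) * Real.exp (c * (-t)) ∂μ with hb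
    have hterm : ∀ n : ℕ, ((n.factorial : ℂ))⁻¹ • ((a : ℂ) - c) ^ n • iteratedDeriv n F (c : ℂ)
        = ((b n : ℝ) : ℂ) := by
      intro n
      rw [(hev c hcc).iteratedDeriv_eq, iteratedDeriv_complexMGF (by simpa using hint c hcc) n, hb,
        ← integral_complex_ofReal, smul_smul, ← integral_smul]
      congr 1; ext t
      rw [smul_eq_mul]
      push_cast
      have e : ((a : ℂ) - c) ^ n * (-(t : ℂ)) ^ n = ((c - a) * t) ^ n := by
        rw [← mul_pow]; congr 1; ring
      rw [show (X t : ℝ) = -t from rfl]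
      push_cast
      rw [← e]
      ring
    have hsum2 : Summable b := by
      have h1 : Summable fun n => ((b n : ℝ) : ℂ) := by
        have := hsum.summable
        refine this.congr fun n => ?_
        exact hterm n
      exact Complex.summable_ofReal.1 h1
    have hbint : ∀ n : ℕ, Integrable
        (fun t : ℝ => ((c - a) * t) ^ n / (n.factorial : ℝ) * Real.exp (c * (-t))) μ := by
      intro n
      have h1 := integrable_pow_mul_exp_of_mem_interior_integrableExpSet (hint c hcc) n
      have h2 := h1.const_mul ((-(c - a)) ^ n / (n.factorial : ℝ))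
      refine h2.congr (Eventually.of_forall fun t => ?_)
      show (-(c - a)) ^ n / (n.factorial : ℝ) * ((-t) ^ n * Real.exp (c * (-t)))
        = ((c - a) * t) ^ n / (n.factorial : ℝ) * Real.exp (c * (-t))
      have e : (-(c - a)) ^ n * (-t) ^ n = ((c - a) * t) ^ n := by
        rw [← mul_pow]; congr 1; ring
      rw [← e]; ring
    have hbnn : ∀ n : ℕ, 0 ≤ᵐ[μ] fun t : ℝ =>
        ((c - a) * t) ^ n / (n.factorial : ℝ) * Real.exp (c * (-t)) := by
      intro n
      filter_upwards [hμ] with t ht
      have : 0 ≤ (c - a) * t := mul_nonneg (by linarith) ht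
      show (0 : ℝ) ≤ _
      positivity
    refine ⟨by fun_prop, ?_⟩
    rw [hasFiniteIntegral_iff_ofReal (Eventually.of_forall fun t => (Real.exp_pos _).le)]
    have e1 : ∫⁻ t, ENNReal.ofReal (Real.exp (a * (-t))) ∂μ
        = ∫⁻ t, ∑' n : ℕ, ENNReal.ofReal
          (((c - a) * t) ^ n / (n.factorial : ℝ) * Real.exp (c * (-t))) ∂μ := by
      apply lintegral_congr_ae
      filter_upwards [hμ] with t ht
      have h0 : 0 ≤ (c - a) * t := mul_nonneg (by linarith) ht
      have h1 : HasSum (fun n : ℕ => ((c - a) * t) ^ n / (n.factorial : ℝ)) (Real.exp ((c - a) * t)) := by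
        rw [Real.exp_eq_exp_ℝ]; exact NormedSpace.expSeries_div_hasSum_exp ((c - a) * t)
      have h2 := h1.mul_right (Real.exp (c * (-t)))
      rw [← Real.exp_add, show (c - a) * t + c * (-t) = a * (-t) by ring] at h2
      rw [← h2.tsum_eq, ENNReal.ofReal_tsum_of_nonneg (fun n => by positivity) h2.summable]
    rw [e1, lintegral_tsum (fun n => by fun_prop)]
    have e2 : ∀ n : ℕ, ∫⁻ t, ENNReal.ofReal
        (((c - a) * t) ^ n / (n.factorial : ℝ) * Real.exp (c * (-t))) ∂μ = ENNReal.ofReal (b n) :=
      fun n => (ofReal_integral_eq_lintegral_ofReal (hbint n) (hbnn n)).symm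
    simp_rw [e2]
    rw [← ENNReal.ofReal_tsum_of_nonneg (fun n => integral_nonneg_of_ae (hbnn n)) hsum2]
    exact ENNReal.ofReal_lt_top
  refine ⟨main, fun z hz => ?_⟩
  have hopen : IsOpen {z : ℂ | s < z.re} := isOpen_lt continuous_const Complex.continuous_re
  have hpre : IsPreconnected {z : ℂ | s < z.re} := by
    have : Convex ℝ {z : ℂ | s < z.re} := convex_halfSpace_re_gt s
    exact this.isPreconnected
  have hM : AnalyticOnNhd ℂ (complexMGF X μ) {z : ℂ | s < z.re} := by
    apply analyticOnNhd_complexMGF.mono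
    intro w hw
    show w.re ∈ interior (integrableExpSet X μ)
    rw [mem_interior]
    exact ⟨Ioi s, fun a ha => main a ha, isOpen_Ioi, hw⟩
  set c : ℝ := max s c₀ + 1 with hcdef
  have hcs : s < c := by have := le_max_left s c₀; linarith
  have hcc : c₀ < c := by have := le_max_right s c₀; linarith
  have := (hF.analyticOnNhd hopen).eqOn_of_preconnected_of_eventuallyEq hM hpre
    (show (c : ℂ) ∈ {z : ℂ | s < z.re} by simpa using hcs) (hev c hcc)
  exact this hz

end Pool.Agent.W680.SG
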