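import Mathlib

/-!
# Plancherel for Hilbert space valued functions
-/

set_option autoImplicit false

open Complex Filter Topology MeasureTheory FourierTransform
open scoped InnerProductSpace SchwartzMap ENNReal ContDiff

namespace Pool.Agent.W680.SG

variable {E : Type*} [NormedAddCommGroup E] [InnerProductSpace ℂ E] [CompleteSpace E]

lemma fourier_toLp_ae (h : ℝ → E) (h1 : Integrable h) (h2 : MemLp h 2) :
    (𝓕 (h2.toLp h : Lp (α := ℝ) E 2) : Lp (α := ℝ) E 2) =ᵐ[volume] 𝓕 h := by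
  apply ae_eq_of_integral_contDiff_smul_eq
  · exact (Lp.memLp _).locallyIntegrable (by norm_num)
  · apply Continuous.locallyIntegrable
    exact VectorFourier.fourierIntegral_continuous Real.continuous_fourierChar
      (innerSL ℝ).continuous₂ h1
  · intro g g_smooth g_cpt
    have hg₁ : HasCompactSupport (Complex.ofRealCLM ∘ g) := g_cpt.comp_left rfl
    have hg₂ : ContDiff ℝ ∞ (Complex.ofRealCLM ∘ g) := by fun_prop
    set G : 𝓢(ℝ, ℂ) := hg₁.toSchwartzMap hg₂ with hG
    have e1 : ∫ x, g x • (𝓕 (h2.toLp h : Lp (α := ℝ) E 2) : Lp (α := ℝ) E 2) x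
        = (Lp.toTemperedDistribution (𝓕 (h2.toLp h : Lp (α := ℝ) E 2) : Lp (α := ℝ) E 2)) G := by
      rw [Lp.toTemperedDistribution_apply]
      simp [hG]
    rw [e1, ← Lp.fourier_toTemperedDistribution_eq, TemperedDistribution.fourier_apply,
      Lp.toTemperedDistribution_apply]
    have e2 : ∫ x, (𝓕 G) x • (h2.toLp h : Lp (α := ℝ) E 2) x = ∫ x, (𝓕 (G : ℝ → ℂ)) x • h x := by
      apply integral_congr_ae
      filter_upwards [h2.coeFn_toLp] with x hx
      rw [hx]
      rfl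
    rw [e2]
    have e3 : ∫ x, (𝓕 (G : ℝ → ℂ)) x • h x = ∫ x, (G x) • (𝓕 h) x := by
      simpa using! (VectorFourier.integral_fourierIntegral_smul_eq_flip (L := innerₗ ℝ)
        Real.continuous_fourierChar continuous_inner G.integrable h1)
    rw [e3]
    apply integral_congr_ae
    filter_upwards with x
    simp [hG]

theorem memLp_fourier (h : ℝ → E) (h1 : Integrable h) (h2 : MemLp h 2) : MemLp (𝓕 h) 2 := by
  have := Lp.memLp (𝓕 (h2.toLp h : Lp (α := ℝ) E 2) : Lp (α := ℝ) E 2)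
  exact this.ae_eq (fourier_toLp_ae h h1 h2)

theorem memLp_of_weak_fourier {F G : ℝ → E} (hF : LocallyIntegrable F volume) (hG : MemLp G 2)
    (hw : ∀ φ : E, Integrable (fun t => ⟪φ, F t⟫_ℂ) ∧
      ∀ b, 𝓕 (fun t => ⟪φ, F t⟫_ℂ) b = ⟪φ, G b⟫_ℂ) : MemLp F 2 := by
  let Gh : Lp (α := ℝ) E 2 volume := hG.toLp G
  let g2 : Lp (α := ℝ) E 2 volume := 𝓕⁻ Gh
  have hg2' : 𝓕 g2 = Gh := FourierTransform.fourier_fourierInv_eq Gh
  have key : F =ᵐ[volume] g2 := by
    apply ae_eq_of_integral_contDiff_smul_eq hF ((Lp.memLp _).locallyIntegrable (by norm_num))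
    intro g g_smooth g_cpt
    have hg₁ : HasCompactSupport (Complex.ofRealCLM ∘ g) := g_cpt.comp_left rfl
    have hg₂ : ContDiff ℝ ∞ (Complex.ofRealCLM ∘ g) := by fun_prop
    set S : 𝓢(ℝ, ℂ) := hg₁.toSchwartzMap hg₂ with hS
    set h : 𝓢(ℝ, ℂ) := 𝓕⁻ S with hh
    have hh' : 𝓕 h = S := by rw [hh]; exact FourierTransform.fourier_fourierInv_eq S
    have hint : Integrable fun x => h x • G x := by
      have h3 : MemLp (h : ℝ → ℂ) 2 := h.memLp 2
      have h4 : MemLp ((h : ℝ → ℂ) • G) 1 := hG.smul h3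
      exact memLp_one_iff_integrable.1 h4
    have e1 : ∫ x, g x • g2 x = ∫ x, h x • G x := by
      have e2 : ∫ x, g x • g2 x = (Lp.toTemperedDistribution g2) S := by
        rw [Lp.toTemperedDistribution_apply]
        simp [hS]
      rw [e2, ← hh', ← TemperedDistribution.fourier_apply, Lp.fourier_toTemperedDistribution_eq,
        hg2', Lp.toTemperedDistribution_apply]
      apply integral_congr_ae
      filter_upwards [hG.coeFn_toLp] with x hx
      rw [hx]
    rw [e1]
    have hgF : Integrable fun x => g x • F x :=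
      hF.integrable_smul_left_of_hasCompactSupport g_smooth.continuous g_cpt
    refine ext_inner_left ℂ fun φ => ?_
    rw [← integral_inner hgF, ← integral_inner hint]
    obtain ⟨h5, h6⟩ := hw φ
    have e3 : ∫ x, (𝓕 (h : ℝ → ℂ)) x • ⟪φ, F x⟫_ℂ = ∫ x, (h x) • (𝓕 (fun t => ⟪φ, F t⟫_ℂ)) x := by
      simpa using! (VectorFourier.integral_fourierIntegral_smul_eq_flip (L := innerₗ ℝ)
        Real.continuous_fourierChar continuous_inner h.integrable h5)
    calc ∫ x, ⟪φ, g x • F x⟫_ℂ = ∫ x, (𝓕 (h : ℝ → ℂ)) x • ⟪φ, F x⟫_ℂ := by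
          congr 1; ext x
          have e4 : (𝓕 (h : ℝ → ℂ)) x = ((g x : ℝ) : ℂ) := by
            have : (𝓕 (h : ℝ → ℂ)) = ((𝓕 h : 𝓢(ℝ, ℂ)) : ℝ → ℂ) := (SchwartzMap.fourier_coe h).symm
            rw [this, hh']
            simp [hS]
          rw [e4, ← Complex.coe_smul, inner_smul_right, smul_eq_mul]
      _ = ∫ x, (h x) • (𝓕 (fun t => ⟪φ, F t⟫_ℂ)) x := e3
      _ = ∫ x, ⟪φ, h x • G x⟫_ℂ := by
          congr 1; ext x
          rw [h6, inner_smul_right, smul_eq_mul]
  exact (Lp.memLp g2).ae_eq key.symm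

end Pool.Agent.W680.SG
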