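import Pool.Agent.W680.SG.Basic
import Pool.Agent.W680.SG.Cone
import Pool.Agent.W680.SG.Landau
import Pool.Agent.W680.SG.Planch

/-!
# Positive groups on an ordered Hilbert space
-/

set_option autoImplicit false

open Filter Topology MeasureTheory Set FourierTransform
open scoped NNReal ENNReal InnerProductSpace

namespace Pool.Agent.W680.SG

variable {H : Type*} [NormedAddCommGroup H] [InnerProductSpace ℝ H]
variable {E : Type*} [NormedAddCommGroup E] [InnerProductSpace ℂ E]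

/-- The complex Hilbert space `E` is the complexification `H ⊕ iH` of the real Hilbert space `H`,
through the real-linear map `J`. -/
structure IsComplexification (J : H →ₗ[ℝ] E) : Prop where
  inner_eq : ∀ x y : H, ⟪J x, J y⟫_ℂ = ((⟪x, y⟫_ℝ : ℝ) : ℂ)
  exists_eq : ∀ z : E, ∃ x y : H, z = J x + Complex.I • J y

open Classical in
/-- the resolvent as a function -/
noncomputable def res (T : ℝ → E →L[ℂ] E) (z : ℂ) : E →L[ℂ] E :=
  if h : ∃ R, IsRes T z R then h.choose else 0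

theorem res_spec {T : ℝ → E →L[ℂ] E} {z : ℂ} (h : ∃ R, IsRes T z R) : IsRes T z (res T z) := by
  unfold res
  rw [dif_pos h]
  exact h.choose_spec

section diff

variable {T : ℝ → E →L[ℂ] E} {s : ℝ} (hs : ∀ z : ℂ, s < z.re → ∃ R, IsRes T z R)
include hs

theorem res_bound {z₀ z : ℂ} (hz₀ : s < z₀.re) (hz : s < z.re)
    (h : ‖z - z₀‖ * ‖res T z₀‖ ≤ 1 / 2) : ‖res T z‖ ≤ 2 * ‖res T z₀‖ := by
  have h1 := (res_spec (hs z hz)).identity (res_spec (hs z₀ hz₀))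
  have h2 : ‖res T z‖ ≤ ‖res T z₀‖ + ‖(z₀ - z) • (res T z * res T z₀)‖ := by
    calc ‖res T z‖ = ‖res T z₀ + (res T z - res T z₀)‖ := by congr 1; abel
      _ ≤ _ := norm_add_le _ _
      _ = _ := by rw [h1]
  have h3 : ‖(z₀ - z) • (res T z * res T z₀)‖ ≤ ‖z - z₀‖ * (‖res T z‖ * ‖res T z₀‖) := by
    rw [norm_smul, norm_sub_rev]
    exact mul_le_mul_of_nonneg_left (norm_mul_le _ _) (norm_nonneg _)
  have h4 : ‖z - z₀‖ * (‖res T z‖ * ‖res T z₀‖) ≤ 1 / 2 * ‖res T z‖ := by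
    calc ‖z - z₀‖ * (‖res T z‖ * ‖res T z₀‖) = (‖z - z₀‖ * ‖res T z₀‖) * ‖res T z‖ := by ring
      _ ≤ 1 / 2 * ‖res T z‖ := mul_le_mul_of_nonneg_right h (norm_nonneg _)
  linarith

theorem res_tendsto {z₀ : ℂ} (hz₀ : s < z₀.re) : Tendsto (res T) (𝓝 z₀) (𝓝 (res T z₀)) := by
  rw [tendsto_iff_norm_sub_tendsto_zero]
  have hopen : {z : ℂ | s < z.re} ∈ 𝓝 z₀ :=
    (isOpen_lt continuous_const Complex.continuous_re).mem_nhds hz₀
  have hc : Tendsto (fun z : ℂ => ‖z - z₀‖ * ‖res T z₀‖) (𝓝 z₀) (𝓝 0) := by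
    have : Tendsto (fun z : ℂ => ‖z - z₀‖ * ‖res T z₀‖) (𝓝 z₀) (𝓝 (‖z₀ - z₀‖ * ‖res T z₀‖)) :=
      (((continuous_id.sub continuous_const).norm).mul continuous_const).tendsto z₀
    simpa using this
  have hsmall : ∀ᶠ z in 𝓝 z₀, ‖z - z₀‖ * ‖res T z₀‖ ≤ 1 / 2 :=
    (hc.eventually (eventually_le_nhds (by norm_num : (0 : ℝ) < 1 / 2)))
  have hc2 : Tendsto (fun z : ℂ => ‖z - z₀‖ * ‖res T z₀‖ * (2 * ‖res T z₀‖)) (𝓝 z₀) (𝓝 0) := by
    simpa using hc.mul_const (2 * ‖res T z₀‖)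
  refine squeeze_zero' (Eventually.of_forall fun _ => norm_nonneg _) ?_ hc2
  filter_upwards [hopen, hsmall] with z hz h1
  rw [(res_spec (hs z hz)).identity (res_spec (hs z₀ hz₀)), norm_smul, norm_sub_rev]
  have h2 := res_bound hs hz₀ hz h1
  calc ‖z - z₀‖ * ‖res T z * res T z₀‖ ≤ ‖z - z₀‖ * (‖res T z‖ * ‖res T z₀‖) :=
        mul_le_mul_of_nonneg_left (norm_mul_le _ _) (norm_nonneg _)
    _ ≤ ‖z - z₀‖ * ((2 * ‖res T z₀‖) * ‖res T z₀‖) := by gcongr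
    _ = _ := by ring

theorem res_hasDerivAt {z₀ : ℂ} (hz₀ : s < z₀.re) :
    HasDerivAt (res T) (-(res T z₀ * res T z₀)) z₀ := by
  rw [hasDerivAt_iff_tendsto_slope]
  have h1 : Tendsto (fun z => -(res T z * res T z₀)) (𝓝[≠] z₀) (𝓝 (-(res T z₀ * res T z₀))) :=
    (((res_tendsto hs hz₀).mono_left nhdsWithin_le_nhds).mul_const _).neg
  refine h1.congr' ?_
  have hopen : {z : ℂ | s < z.re} ∈ 𝓝[≠] z₀ := mem_nhdsWithin_of_mem_nhds
    ((isOpen_lt continuous_const Complex.continuous_re).mem_nhds hz₀)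
  filter_upwards [hopen, self_mem_nhdsWithin] with z hz hne
  rw [slope_def_module, (res_spec (hs z hz)).identity (res_spec (hs z₀ hz₀)), smul_smul]
  have : (z - z₀)⁻¹ * (z₀ - z) = -1 := by
    have : z - z₀ ≠ 0 := sub_ne_zero.2 hne
    field_simp
    ring
  rw [this, neg_one_smul]

end diff

section weak

variable [CompleteSpace E]

/-- weak Laplace representation of the resolvent on the half-plane `Re z > s` -/
def WeakRep (T : ℝ → E →L[ℂ] E) (s : ℝ) (φ x : E) : Prop :=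
  ∀ z : ℂ, s < z.re → IntegrableOn (fun t => ⟪φ, lap T z x t⟫_ℂ) (Ioi 0) ∧
    ⟪φ, res T z x⟫_ℂ = ∫ t in Ioi (0 : ℝ), ⟪φ, lap T z x t⟫_ℂ

theorem weakRep_of_pos {T : ℝ → E →L[ℂ] E} (hT : IsGroup T) {s : ℝ}
    (hs : ∀ z : ℂ, s < z.re → ∃ R, IsRes T z R) {K r : ℝ}
    (h : ∀ t : ℝ, 0 ≤ t → ‖T t‖ ≤ K * Real.exp (r * t)) (φ x : E)
    (hpos : ∀ t : ℝ, ∃ u : ℝ, 0 ≤ u ∧ ⟪φ, T t x⟫_ℂ = u) : WeakRep T s φ x := by
  set g : ℝ → ℝ := fun t => (⟪φ, T t x⟫_ℂ).re with hg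
  have hg0 : ∀ t, 0 ≤ g t := by
    intro t
    obtain ⟨u, hu, he⟩ := hpos t
    show 0 ≤ (⟪φ, T t x⟫_ℂ).re
    rw [he]; simpa using hu
  have hgE : ∀ t, ⟪φ, T t x⟫_ℂ = (g t : ℂ) := by
    intro t
    obtain ⟨u, hu, he⟩ := hpos t
    show _ = (((⟪φ, T t x⟫_ℂ).re : ℝ) : ℂ)
    rw [he]; simp
  have hgc : Continuous g := Complex.continuous_re.comp (continuous_const.inner (hT.cont x))
  set ν : Measure ℝ := volume.restrict (Ioi 0) with hν
  set ρ : ℝ → ℝ≥0∞ := fun t => ENNReal.ofReal (g t) with hρ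
  have hρm : Measurable ρ := ENNReal.measurable_ofReal.comp hgc.measurable
  have hρt : ∀ᵐ t ∂ν, ρ t < ∞ := Eventually.of_forall fun t => ENNReal.ofReal_lt_top
  have hρr : ∀ t, (ρ t).toReal = g t := fun t => ENNReal.toReal_ofReal (hg0 t)
  set μ : Measure ℝ := ν.withDensity ρ with hμ
  have hlapz : ∀ (z : ℂ) (t : ℝ), ⟪φ, lap T z x t⟫_ℂ = (ρ t).toReal • Complex.exp (z * ((-t : ℝ) : ℂ)) := by
    intro z t
    rw [hρr, lap, inner_smul_right, hgE]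
    have : -z * (t : ℂ) = z * ((-t : ℝ) : ℂ) := by push_cast; ring
    rw [this, Complex.real_smul, mul_comm]
  have hiff : ∀ z : ℂ, Integrable (fun t : ℝ => Complex.exp (z * ((-t : ℝ) : ℂ))) μ ↔
      IntegrableOn (fun t => ⟪φ, lap T z x t⟫_ℂ) (Ioi 0) := by
    intro z
    rw [hμ, integrable_withDensity_iff_integrable_smul' hρm hρt]
    simp_rw [← hlapz]
    rfl
  have hint : ∀ z : ℂ, ∫ t, Complex.exp (z * ((-t : ℝ) : ℂ)) ∂μ
      = ∫ t in Ioi (0 : ℝ), ⟪φ, lap T z x t⟫_ℂ := by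
    intro z
    rw [hμ, integral_withDensity_eq_integral_toReal_smul hρm hρt]
    simp_rw [← hlapz]
    rfl
  have hreal : ∀ z : ℂ, Integrable (fun t : ℝ => Complex.exp (z * ((-t : ℝ) : ℂ))) μ ↔
      Integrable (fun t : ℝ => Real.exp (z.re * (-t))) μ := by
    intro z
    have e : (fun t : ℝ => ‖Complex.exp (z * ((-t : ℝ) : ℂ))‖) = fun t : ℝ => Real.exp (z.re * (-t)) := by
      ext t
      rw [Complex.norm_exp]
      congr 1
      simp
    rw [← e, integrable_norm_iff]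
    exact (Complex.continuous_exp.comp (continuous_const.mul
      (Complex.continuous_ofReal.comp continuous_neg))).aestronglyMeasurable
  have hF : DifferentiableOn ℂ (fun z => ⟪φ, res T z x⟫_ℂ) {z | s < z.re} := by
    intro z hz
    have h1 := res_hasDerivAt hs hz
    have h2 := ((innerSL ℂ φ) ∘L (ContinuousLinearMap.apply ℂ E x)).hasFDerivAt.comp_hasDerivAt z h1
    exact h2.differentiableAt.differentiableWithinAt
  have hL : ∀ z : ℂ, max r s < z.re →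
      IntegrableOn (fun t => ⟪φ, lap T z x t⟫_ℂ) (Ioi 0) ∧
      ⟪φ, res T z x⟫_ℂ = ∫ t in Ioi (0 : ℝ), ⟪φ, lap T z x t⟫_ℂ := by
    intro z hz
    have hz1 : r < z.re := (le_max_left _ _).trans_lt hz
    have hz2 : s < z.re := (le_max_right _ _).trans_lt hz
    have h1 := lap_integrableOn hT h hz1 x
    refine ⟨h1.const_inner φ, ?_⟩
    rw [(res_spec (hs z hz2)).unique (lapOp_isRes hT h hz1), lapOp_apply, integral_inner h1]
  have hland := landau (μ := μ) (s := s) (c₀ := max r s) (F := fun z => ⟪φ, res T z x⟫_ℂ)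
    (by
      have : ∀ᵐ t ∂ν, 0 ≤ t := by
        filter_upwards [ae_restrict_mem measurableSet_Ioi] with t ht using le_of_lt ht
      exact (withDensity_absolutelyContinuous ν ρ).ae_le this)
    (by
      intro a ha
      have := (hreal (a : ℂ)).1 ((hiff (a : ℂ)).2 (hL (a : ℂ) (by simpa using ha)).1)
      simpa using this)
    hF (fun z hz => by rw [hint]; exact (hL z hz).2)
  intro z hz
  refine ⟨(hiff z).1 ((hreal z).2 (hland.1 z.re hz)), ?_⟩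
  rw [← hint]
  exact hland.2 z hz

theorem WeakRep.add_right {T : ℝ → E →L[ℂ] E} {s : ℝ} {φ x y : E} (h1 : WeakRep T s φ x)
    (h2 : WeakRep T s φ y) : WeakRep T s φ (x + y) := by
  intro z hz
  obtain ⟨a1, a2⟩ := h1 z hz
  obtain ⟨b1, b2⟩ := h2 z hz
  have e : (fun t => ⟪φ, lap T z (x + y) t⟫_ℂ)
      = fun t => ⟪φ, lap T z x t⟫_ℂ + ⟪φ, lap T z y t⟫_ℂ := by
    ext t; simp [lap, smul_add, inner_add_right]
  rw [e]
  refine ⟨a1.add b1, ?_⟩
  rw [integral_add a1 b1, map_add, inner_add_right, a2, b2]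

theorem WeakRep.smul_right {T : ℝ → E →L[ℂ] E} {s : ℝ} {φ x : E} (h1 : WeakRep T s φ x) (c : ℂ) :
    WeakRep T s φ (c • x) := by
  intro z hz
  obtain ⟨a1, a2⟩ := h1 z hz
  have e : (fun t => ⟪φ, lap T z (c • x) t⟫_ℂ) = fun t => c * ⟪φ, lap T z x t⟫_ℂ := by
    ext t
    simp only [lap, map_smul]
    rw [smul_comm, inner_smul_right]
  rw [e]
  refine ⟨a1.const_mul c, ?_⟩
  rw [integral_const_mul, map_smul, inner_smul_right, a2]

theorem WeakRep.add_left {T : ℝ → E →L[ℂ] E} {s : ℝ} {φ ψ x : E} (h1 : WeakRep T s φ x)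
    (h2 : WeakRep T s ψ x) : WeakRep T s (φ + ψ) x := by
  intro z hz
  obtain ⟨a1, a2⟩ := h1 z hz
  obtain ⟨b1, b2⟩ := h2 z hz
  have e : (fun t => ⟪φ + ψ, lap T z x t⟫_ℂ)
      = fun t => ⟪φ, lap T z x t⟫_ℂ + ⟪ψ, lap T z x t⟫_ℂ := by
    ext t; simp [inner_add_left]
  rw [e]
  refine ⟨a1.add b1, ?_⟩
  rw [integral_add a1 b1, inner_add_left, a2, b2]

theorem WeakRep.smul_left {T : ℝ → E →L[ℂ] E} {s : ℝ} {φ x : E} (h1 : WeakRep T s φ x) (c : ℂ) :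
    WeakRep T s (c • φ) x := by
  intro z hz
  obtain ⟨a1, a2⟩ := h1 z hz
  have e : (fun t => ⟪c • φ, lap T z x t⟫_ℂ)
      = fun t => (starRingEnd ℂ) c * ⟪φ, lap T z x t⟫_ℂ := by
    ext t
    rw [inner_smul_left]
  rw [e]
  refine ⟨a1.const_mul _, ?_⟩
  rw [integral_const_mul, inner_smul_left, a2]

/-- the weak representation for positive groups -/
theorem weakRep_all [CompleteSpace H] {T : ℝ → E →L[ℂ] E} (hT : IsGroup T) {s : ℝ}
    (hs : ∀ z : ℂ, s < z.re → ∃ R, IsRes T z R) {J : H →ₗ[ℝ] E} (hJ : IsComplexification J)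
    {P : Set H} (hP : IsOrderCone P) (hpos : ∀ t, ∀ x ∈ P, ∃ y ∈ P, T t (J x) = J y) (φ x : E) :
    WeakRep T s φ x := by
  obtain ⟨K, r, -, h⟩ := hT.exists_growth
  have h1 : ∀ φ : H, (∀ x ∈ P, 0 ≤ ⟪φ, x⟫_ℝ) → ∀ x ∈ P, WeakRep T s (J φ) (J x) := by
    intro φ hφ x hx
    refine weakRep_of_pos hT hs h _ _ fun t => ?_
    obtain ⟨y, hy, he⟩ := hpos t x hx
    exact ⟨⟪φ, y⟫_ℝ, hφ y hy, by rw [he, hJ.inner_eq]⟩
  have h2 : ∀ φ : H, (∀ x ∈ P, 0 ≤ ⟪φ, x⟫_ℝ) → ∀ x : H, WeakRep T s (J φ) (J x) := by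
    intro φ hφ x
    obtain ⟨y, hy, z, hz, rfl⟩ := hP.generating x
    have := (h1 φ hφ y hy).add_right ((h1 φ hφ z hz).smul_right (-1))
    have e : J (y - z) = J y + (-1 : ℂ) • J z := by rw [map_sub]; simp [sub_eq_add_neg]
    rwa [e]
  have h3 : ∀ φ x : H, WeakRep T s (J φ) (J x) := by
    intro φ x
    obtain ⟨φ₁, φ₂, a1, a2, rfl⟩ := hP.dual_generating φ
    have := (h2 φ₁ a1 x).add_left ((h2 φ₂ a2 x).smul_left (-1))
    have e : J (φ₁ - φ₂) = J φ₁ + (-1 : ℂ) • J φ₂ := by rw [map_sub]; simp [sub_eq_add_neg]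
    rwa [e]
  obtain ⟨φ₁, φ₂, rfl⟩ := hJ.exists_eq φ
  obtain ⟨x₁, x₂, rfl⟩ := hJ.exists_eq x
  have h4 : ∀ φ : H, WeakRep T s (J φ) (J x₁ + Complex.I • J x₂) := fun φ =>
    (h3 φ x₁).add_right ((h3 φ x₂).smul_right _)
  exact (h4 φ₁).add_left ((h4 φ₂).smul_left _)

end weak

end Pool.Agent.W680.SG
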