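import Pool.Agent.W680.SG.Final

/-!
# Spectral bound = growth bound for positive groups on an ordered Hilbert space
-/

set_option autoImplicit false

open Filter Topology MeasureTheory Set
open scoped NNReal ENNReal InnerProductSpace

namespace Pool.Agent.W680.SG

variable {H : Type*} [NormedAddCommGroup H] [InnerProductSpace ℝ H]
variable {E : Type*} [NormedAddCommGroup E] [InnerProductSpace ℂ E]

/-- The spectrum of the generator `A` of the group `T`: the complex numbers `z` for which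
`z - A : D(A) → E` has no bounded inverse. -/
def genSpectrum (T : ℝ → E →L[ℂ] E) : Set ℂ := {z | ¬ ∃ R, IsRes T z R}

/-- The spectral bound `sup {Re z : z ∈ σ(A)}` (in the extended reals, `⊥` if `σ(A) = ∅`). -/
noncomputable def spectralBound (T : ℝ → E →L[ℂ] E) : EReal :=
  sSup ((fun z : ℂ => (z.re : EReal)) '' genSpectrum T)

variable [CompleteSpace H] [CompleteSpace E]

theorem one_le_norm_mul [Nontrivial E] {T : ℝ → E →L[ℂ] E} (hT : IsGroup T) (t : ℝ) :
    1 ≤ ‖T t‖ * ‖T (-t)‖ := by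
  have h : T t * T (-t) = 1 := by rw [← hT.map_add, add_neg_cancel, hT.map_zero]
  calc (1 : ℝ) = ‖(1 : E →L[ℂ] E)‖ := norm_one.symm
    _ = ‖T t * T (-t)‖ := by rw [h]
    _ ≤ _ := norm_mul_le _ _

theorem spectralBound_eq [Nontrivial H] {T : ℝ → E →L[ℂ] E} (hT : IsGroup T)
    {J : H →ₗ[ℝ] E} (hJ : IsComplexification J) {P : Set H} (hP : IsOrderCone P)
    (hpos : ∀ t, ∀ x ∈ P, ∃ y ∈ P, T t (J x) = J y) :
    ∃ ω : ℝ, Tendsto (fun t : ℝ => t⁻¹ * Real.log ‖T t‖) atTop (𝓝 ω) ∧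
      spectralBound T = (ω : EReal) := by
  have hEn : Nontrivial E := by
    obtain ⟨x, hx⟩ := exists_ne (0 : H)
    refine ⟨⟨J x, 0, fun h => hx ?_⟩⟩
    have h1 := hJ.inner_eq x x
    rw [h, inner_zero_left] at h1
    have h2 : ⟪x, x⟫_ℝ = 0 := by exact_mod_cast h1.symm
    exact inner_self_eq_zero.1 h2
  have hnp : ∀ t, 0 < ‖T t‖ := by
    intro t
    rcases (norm_nonneg (T t)).eq_or_lt with h | h
    · have := one_le_norm_mul hT t
      rw [← h, zero_mul] at this
      linarith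
    · exact h
  -- growth implies resolvent
  have hres : ∀ r : ℝ, (∃ K : ℝ, 0 < K ∧ ∀ t : ℝ, 0 ≤ t → ‖T t‖ ≤ K * Real.exp (r * t)) →
      ∀ z : ℂ, r < z.re → ∃ R, IsRes T z R := by
    rintro r ⟨K, -, h⟩ z hz
    exact ⟨_, lapOp_isRes hT h hz⟩
  -- resolvent implies growth
  have hgrow : ∀ s : ℝ, (∀ z : ℂ, s < z.re → ∃ R, IsRes T z R) → ∀ a : ℝ, s < a →
      ∃ K : ℝ, 0 < K ∧ ∀ t : ℝ, 0 ≤ t → ‖T t‖ ≤ K * Real.exp (a * t) := fun s hs a ha =>
    growth_of_weakRep hT hs (weakRep_all hT hs hJ hP hpos) ha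
  obtain ⟨K₀, r₀, hK₀, h₀⟩ := hT.exists_growth
  obtain ⟨K₁, r₁, hK₁, h₁⟩ := hT.neg.exists_growth
  have hle : spectralBound T ≤ (r₀ : EReal) := by
    apply sSup_le
    rintro _ ⟨z, hz, rfl⟩
    by_contra h
    rw [not_le, EReal.coe_lt_coe_iff] at h
    exact hz (hres r₀ ⟨K₀, hK₀, h₀⟩ z h)
  have hge : ((-r₁ - 1 : ℝ) : EReal) ≤ spectralBound T := by
    by_contra h
    rw [not_le] at h
    have h2 : ∀ z : ℂ, -r₁ - 1 < z.re → ∃ R, IsRes T z R := by
      intro z hz
      by_contra hc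
      have h3 : (z.re : EReal) ≤ spectralBound T := le_sSup ⟨z, hc, rfl⟩
      have h4 := h3.trans_lt h
      rw [EReal.coe_lt_coe_iff] at h4
      linarith
    obtain ⟨K₂, hK₂, h₂⟩ := hgrow (-r₁ - 1) h2 (-r₁ - 1 / 2) (by linarith)
    have h5 : Tendsto (fun t : ℝ => K₂ * K₁ * Real.exp (-(1 / 2) * t)) atTop (𝓝 (K₂ * K₁ * 0)) := by
      apply Tendsto.const_mul
      apply Real.tendsto_exp_atBot.comp
      exact tendsto_id.const_mul_atTop_of_neg (by norm_num)
    rw [mul_zero] at h5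
    have h6 := h5.eventually (gt_mem_nhds (show (0 : ℝ) < 1 by norm_num))
    obtain ⟨t, ht1, ht2⟩ := (h6.and (eventually_ge_atTop (0 : ℝ))).exists
    have h7 := one_le_norm_mul hT t
    have h8 : ‖T t‖ * ‖T (-t)‖ ≤ (K₂ * Real.exp ((-r₁ - 1 / 2) * t)) * (K₁ * Real.exp (r₁ * t)) :=
      mul_le_mul (h₂ t ht2) (h₁ t ht2) (norm_nonneg _) (by positivity)
    have h9 : (K₂ * Real.exp ((-r₁ - 1 / 2) * t)) * (K₁ * Real.exp (r₁ * t))
        = K₂ * K₁ * Real.exp (-(1 / 2) * t) := by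
      rw [show -(1 / 2) * t = (-r₁ - 1 / 2) * t + r₁ * t by ring, Real.exp_add]; ring
    linarith
  obtain ⟨s, hs⟩ : ∃ s : ℝ, spectralBound T = (s : EReal) := by
    refine ⟨(spectralBound T).toReal, (EReal.coe_toReal ?_ ?_).symm⟩
    · exact (hle.trans_lt (EReal.coe_lt_top _)).ne
    · exact ((EReal.bot_lt_coe _).trans_le hge).ne'
  refine ⟨s, ?_, hs⟩
  have hs1 : ∀ z : ℂ, s < z.re → ∃ R, IsRes T z R := by
    intro z hz
    by_contra hc
    have h3 : (z.re : EReal) ≤ spectralBound T := le_sSup ⟨z, hc, rfl⟩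
    rw [hs, EReal.coe_le_coe_iff] at h3
    linarith
  rw [tendsto_order]
  constructor
  · intro a ha
    filter_upwards [eventually_gt_atTop (0 : ℝ)] with t ht
    by_contra hc
    rw [not_lt] at hc
    have h4 : ‖T t‖ ≤ Real.exp (a * t) := by
      rw [← Real.log_le_iff_le_exp (hnp t)]
      rw [inv_mul_le_iff₀ ht] at hc
      linarith
    have h5 : spectralBound T ≤ (a : EReal) := by
      apply sSup_le
      rintro _ ⟨z, hz, rfl⟩
      by_contra h
      rw [not_le, EReal.coe_lt_coe_iff] at h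
      exact hz (hres a (hT.growth_of_one ht h4) z h)
    rw [hs, EReal.coe_le_coe_iff] at h5
    linarith
  · intro a ha
    obtain ⟨K, hK, h⟩ := hgrow s hs1 ((s + a) / 2) (by linarith)
    have h5 : Tendsto (fun t : ℝ => Real.log K * t⁻¹ + (s + a) / 2) atTop
        (𝓝 (Real.log K * 0 + (s + a) / 2)) :=
      (tendsto_inv_atTop_zero.const_mul _).add_const _
    have h6 := h5.eventually (gt_mem_nhds (show Real.log K * 0 + (s + a) / 2 < a by linarith))
    filter_upwards [h6, eventually_gt_atTop (0 : ℝ)] with t ht1 ht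
    refine lt_of_le_of_lt ?_ ht1
    rw [inv_mul_le_iff₀ ht]
    have h7 : Real.log ‖T t‖ ≤ Real.log (K * Real.exp ((s + a) / 2 * t)) :=
      Real.log_le_log (hnp t) (h t ht.le)
    rw [Real.log_mul hK.ne' (Real.exp_pos _).ne', Real.log_exp] at h7
    refine h7.trans (le_of_eq ?_)
    field_simp

end Pool.Agent.W680.SG
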